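import Pool.Agent.H20.ER3.Lib

/-!
# MP_816b90_co: row QC (the root of a corner in a minimal odd prism)
-/

set_option autoImplicit false
set_option linter.unusedVariables false

open Pool.Agent.H48.ER Pool.Agent.H52.ER2 Pool.Agent.H66.ER2 Pool.Agent.H20.ER3

namespace Pool.Agent.H7.ER3

variable {V : Type} {G : SimpleGraph V} {R F : Set V} {o : Prop} {n : Fin 3 → ℕ}
  {g : Fin 3 → ℕ → V ⊕ Set V}

/-- a set of a smaller root does not touch the vertices of `R` on the prism -/
theorem qc_sp {F' : Set V} {Z Z' : Set (V ⊕ Set V)} (hZ : Sp G R Z) (hF : Sum.inr F ∈ Z)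
    (hs : F' ⊆ F) (hZ' : Z' ⊆ insert (Sum.inr F') Z) : Sp G R Z' := by
  intro F0 hF0 r hr hrZ
  have hrZ2 : Sum.inl r ∈ Z := by
    rcases hZ' hrZ with e | e
    · cases e
    · exact e
  rcases hZ' hF0 with e | e
  · have e2 : F0 = F' := Sum.inr.inj e
    obtain ⟨h1, h2⟩ := hZ F hF r hr hrZ2
    rw [e2]
    exact ⟨fun h => h1 (hs h), fun f hf => h2 f (hs hf)⟩
  · exact hZ F0 e r hr hrZ2

theorem qc_al {F' : Set V} {Z Z' : Set (V ⊕ Set V)} (hZ : Al o G R Z) (hF : Sum.inr F ∈ Z)
    (hs : F' ⊆ F) (hZ' : Z' ⊆ insert (Sum.inr F') (Z \ {Sum.inr F})) : Al o G R Z' := by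
  refine ⟨qc_sp hZ.1 hF hs (hZ'.trans (Set.insert_subset_insert Set.sdiff_subset)), ?_⟩
  intro ho
  have key : ∀ F0 ∈ rt Z', F0 = F' := by
    intro F0 hF0
    rcases hZ' hF0 with e | e
    · exact Sum.inr.inj e
    · exfalso
      have h1 : F0 = F := hZ.2 ho e.1 hF
      exact e.2 (by rw [h1]; rfl)
  intro a ha b hb
  rw [key a ha, key b hb]

theorem fin3_cases (j m : Fin 3) (hj : j ≠ 0) (hm : m ≠ 0) (hjm : j ≠ m) (i : Fin 3) :
    i = 0 ∨ i = j ∨ i = m := by omega

/-- the claim (i) -/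
theorem qc_i (hPZ : U_PZ) (hGP : U_GP) (hH : HMs o G R) (hM : MP o G R n g)
    (h00 : g 0 0 = Sum.inr F) (j m : Fin 3) (hj : j ≠ 0) (hm : m ≠ 0) (hjm : j ≠ m)
    (F' : Set V) (hs : F' ⊆ F) (hR : F ⊆ R) (hC : Cn G F) 
    (hy : (MG G R).Adj (Sum.inr F') (g 0 1)) (ha : (MG G R).Adj (Sum.inr F') (g j 0)) :
    (MG G R).Adj (Sum.inr F') (g m 0) := by
  by_contra hno
  have hpos := hM.pi.pos
  have hip := hPZ _ (MG G R) n g j 0 m 0 1 hM.pi hj hjm hm.symm
    (by have := hpos j; omega) Nat.one_pos (hpos 0)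
  set X := seg (g j) 0 0 ∪ seg (g m) 0 (n m) ∪ seg (g 0) 1 (n 0) with hX
  have hXv : ∀ w ∈ X, ∃ i k, k ≤ n i ∧ g i k = w ∧ ¬ (i = 0 ∧ k = 0) := by
    rintro w ((⟨k, h1, h2, rfl⟩ | ⟨k, h1, h2, rfl⟩) | ⟨k, h1, h2, rfl⟩)
    · exact ⟨j, k, by omega, rfl, fun h => hj h.1⟩
    · exact ⟨m, k, h2, rfl, fun h => hm h.1⟩
    · exact ⟨0, k, h2, rfl, fun h => by omega⟩
  have hup : ∀ w, (MG G R).Adj (Sum.inr F') w → (MG G R).Adj (Sum.inr F) w := by
    intro w hw
    obtain ⟨a, rfl, h⟩ := root_adj hw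
    exact (show Sees G R F a from h.mono hs hR hC)
  have hal : Al o G R (insert (Sum.inr F') X) := by
    refine qc_al hM.al (F := F) (by rw [← h00]; exact mem_vI (Nat.zero_le _)) hs ?_
    refine Set.insert_subset_insert ?_
    intro w hw
    obtain ⟨i, k, hk, rfl, hne⟩ := hXv w hw
    refine ⟨mem_vI hk, fun e => hne ?_⟩
    have e2 : g i k = g 0 0 := by rw [h00]; exact e
    obtain ⟨e3, e4⟩ := hM.pi.inj i 0 k 0 hk (Nat.zero_le _) e2
    exact ⟨e3, e4⟩
  have hev := hGP V o G R F' _ _ _ X hH hip (by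
      have := hpos m
      omega) (by
    intro w hw
    constructor
    · intro hadj
      obtain ⟨i, k, hk, rfl, hne⟩ := hXv w hw
      have h1 := hup _ hadj
      rw [← h00, hM.pi.adj 0 i 0 k (Nat.zero_le _) hk] at h1
      rcases h1 with ⟨h2, h3⟩ | ⟨h2, h3⟩
      · right
        subst h2
        have : k = 1 := by omega
        rw [this]
      · have hk0 : k = 0 := by
          rcases h3 with h4 | h4
          · exact h4.2
          · have := hpos 0
            omega
        subst hk0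
        rcases fin3_cases j m hj hm hjm i with h5 | h5 | h5
        · exact absurd h5 (Ne.symm h2)
        · left
          rw [h5]
        · exfalso
          rw [h5] at hadj
          exact hno hadj
    · rintro (rfl | rfl)
      · exact ha
      · exact hy) hal
  have h1 := hM.odd 0
  have h2 := hM.odd m
  obtain ⟨u, hu⟩ := h1
  obtain ⟨v, hv⟩ := h2
  obtain ⟨w, hw⟩ := hev
  have := hpos 0
  omega

theorem pf_QC (hPZ : U_PZ) (hPR : U_PR) (hGW : U_GW) (hGP : U_GP) (hCON : T_CON)
    (hFST : T_FST) : U_QC := by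
  intro V _ o G R F n g hev hH hM h00
  have hpos := hM.pi.pos
  have hadj := hM.pi.adj
  -- the neighbours of the root
  have ay : (MG G R).Adj (Sum.inr F) (g 0 1) := by
    rw [← h00, hadj 0 0 0 1 (Nat.zero_le _) (hpos 0)]
    left; exact ⟨rfl, Or.inl rfl⟩
  have a2' : (MG G R).Adj (Sum.inr F) (g 1 0) := by
    rw [← h00, hadj 0 1 0 0 (Nat.zero_le _) (Nat.zero_le _)]
    right; exact ⟨by decide, Or.inl ⟨rfl, rfl⟩⟩
  have a3' : (MG G R).Adj (Sum.inr F) (g 2 0) := by
    rw [← h00, hadj 0 2 0 0 (Nat.zero_le _) (Nat.zero_le _)]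
    right; exact ⟨by decide, Or.inl ⟨rfl, rfl⟩⟩
  obtain ⟨y, ey, sy⟩ := root_adj ay
  obtain ⟨a2, e2, s2⟩ := root_adj a2'
  obtain ⟨a3, e3, s3⟩ := root_adj a3'
  obtain ⟨yR, FR, FC, f0, f0F, yf0⟩ := sy
  obtain ⟨a2R, _, _, f1, f1F, af1⟩ := s2
  obtain ⟨a3R, _, _, f2, f2F, af2⟩ := s3
  have hFv : Sum.inr F ∈ vI n g := by rw [← h00]; exact mem_vI (Nat.zero_le _)
  -- the path
  obtain ⟨k0, X0, hX0, hX0F⟩ := hCON V G F f0 f1 FC f0F f1F
  obtain ⟨i, j, f', R1, R2, hR1, _, hf'Z, _, hun, _, _, hfst⟩ :=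
    hFST V G k0 f0 f1 X0 {w | G.Adj a2 w ∨ G.Adj a3 w} hX0 ⟨f1, hX0.right_mem, Or.inl af1⟩
  have hR1X : R1 ⊆ X0 := by rw [← hun]; exact Set.subset_union_left
  obtain ⟨m, j', f, F', R2', hF', _, hfZ, _, hun', _, _, hfst'⟩ :=
    hFST V G i f' f0 R1 {w | G.Adj y w} hR1.rev ⟨f0, hR1.left_mem, yf0⟩
  have hF'R1 : F' ⊆ R1 := by rw [← hun']; exact Set.subset_union_left
  have hF'F : F' ⊆ F := hF'R1.trans (hR1X.trans hX0F)
  have hip : IP G m f f' F' := hF'.rev
  have hC' : Cn G F' := ip_cn hip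
  have hyF : ∀ w ∈ F', G.Adj y w ↔ w = f := fun w hw =>
    ⟨fun h => hfst' w hw h, fun h => by rw [h]; exact hfZ⟩
  have hZ : ∀ w ∈ F', G.Adj a2 w ∨ G.Adj a3 w → w = f' := fun w hw h => hfst w (hF'R1 hw) h
  have sy' : (MG G R).Adj (Sum.inr F') (g 0 1) := by
    rw [ey]
    exact (show Sees G R F' y from ⟨yR, hF'F.trans FR, hC', f, hip.left_mem, hfZ⟩)
  have hto2 : G.Adj a2 f' → (MG G R).Adj (Sum.inr F') (g 1 0) := by
    intro h
    rw [e2]
    exact (show Sees G R F' a2 from ⟨a2R, hF'F.trans FR, hC', f', hip.right_mem, h⟩)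
  have hto3 : G.Adj a3 f' → (MG G R).Adj (Sum.inr F') (g 2 0) := by
    intro h
    rw [e3]
    exact (show Sees G R F' a3 from ⟨a3R, hF'F.trans FR, hC', f', hip.right_mem, h⟩)
  have hfrom2 : (MG G R).Adj (Sum.inr F') (g 1 0) → G.Adj a2 f' := by
    intro h
    rw [e2] at h
    obtain ⟨_, _, _, w, hw, hw2⟩ := (show Sees G R F' a2 from h)
    rw [← hZ w hw (Or.inl hw2)]
    exact hw2
  have hfrom3 : (MG G R).Adj (Sum.inr F') (g 2 0) → G.Adj a3 f' := by
    intro h
    rw [e3] at h
    obtain ⟨_, _, _, w, hw, hw2⟩ := (show Sees G R F' a3 from h)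
    rw [← hZ w hw (Or.inr hw2)]
    exact hw2
  have hboth : G.Adj a2 f' ∧ G.Adj a3 f' := by
    rcases hf'Z with h | h
    · exact ⟨h, hfrom3 (qc_i hPZ hGP hH hM h00 1 2 (by decide) (by decide) (by decide) F' hF'F
        FR FC sy' (hto2 h))⟩
    · exact ⟨hfrom2 (qc_i hPZ hGP hH hM h00 2 1 (by decide) (by decide) (by decide) F' hF'F
        FR FC sy' (hto3 h)), h⟩
  have h2F : ∀ w ∈ F', G.Adj a2 w ↔ w = f' := fun w hw =>
    ⟨fun h => hZ w hw (Or.inl h), fun h => by rw [h]; exact hboth.1⟩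
  have h3F : ∀ w ∈ F', G.Adj a3 w ↔ w = f' := fun w hw =>
    ⟨fun h => hZ w hw (Or.inr h), fun h => by rw [h]; exact hboth.2⟩
  have sa2 := hto2 hboth.1
  have sa3 := hto3 hboth.2
  have hup : ∀ w, (MG G R).Adj (Sum.inr F') w → (MG G R).Adj (Sum.inr F) w := by
    intro w hw
    obtain ⟨a, rfl, h⟩ := root_adj hw
    exact (show Sees G R F a from h.mono hF'F FR FC)
  have hsame : ∀ i k, k ≤ n i → ((MG G R).Adj (Sum.inr F') (g i k) ↔
      (MG G R).Adj (g 0 0) (g i k)) := by
    intro i k hk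
    constructor
    · intro h
      rw [h00]
      exact hup _ h
    · intro h
      rw [hadj 0 i 0 k (Nat.zero_le _) hk] at h
      rcases h with ⟨h1, h3⟩ | ⟨h1, h3⟩
      · subst h1
        have : k = 1 := by omega
        rw [this]
        exact sy'
      · have hk0 : k = 0 := by
          rcases h3 with h4 | h4
          · exact h4.2
          · have := hpos 0
            omega
        subst hk0
        rcases fin3_cases 1 2 (by decide) (by decide) (by decide) i with h5 | h5 | h5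
        · exact absurd h5 (Ne.symm h1)
        · rw [h5]; exact sa2
        · rw [h5]; exact sa3
  -- the set of the root is the path
  have hFF : F' = F := by
    by_contra hne
    have hlt : F'.ncard < F.ncard :=
      Set.ncard_lt_ncard (hF'F.ssubset_of_ne hne) (Set.toFinite _)
    have hdist : ∀ i k, k ≤ n i → ¬ (i = 0 ∧ k = 0) → (Sum.inr F' : V ⊕ Set V) ≠ g i k := by
      intro i k hk hik e
      have h1 := sy'
      have h2 := sa2
      have h3 := sa3
      rw [e] at h1 h2 h3
      rw [hadj i 0 k 1 hk (hpos 0)] at h1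
      rw [hadj i 1 k 0 hk (Nat.zero_le _)] at h2
      rw [hadj i 2 k 0 hk (Nat.zero_le _)] at h3
      have p0 := hpos 0
      have p1 := hpos 1
      have p2 := hpos 2
      rcases fin3_cases 1 2 (by decide) (by decide) (by decide) i with h5 | h5 | h5
      · subst h5
        refine hik ⟨rfl, ?_⟩
        rcases h2 with h6 | h6
        · exact absurd h6.1 (by decide)
        · rcases h6.2 with h7 | h7
          · exact h7.1
          · omega
      · subst h5
        rcases h2 with h6 | h6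
        · rcases h3 with h7 | h7
          · exact absurd h7.1 (by decide)
          · rcases h7.2 with h8 | h8 <;> omega
        · exact h6.1 rfl
      · subst h5
        rcases h3 with h6 | h6
        · rcases h2 with h7 | h7
          · exact absurd h7.1 (by decide)
          · rcases h7.2 with h8 | h8 <;> omega
        · exact h6.1 rfl
    set h : ℕ → V ⊕ Set V := Function.update (g 0) 0 (Sum.inr F') with hh
    have hh0 : h 0 = Sum.inr F' := by rw [hh]; simp
    have hhk : ∀ k, k ≠ 0 → h k = g 0 k := fun k hk => by rw [hh]; simp [hk]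
    have hsym : ∀ i k, k ≤ n i → ((MG G R).Adj (g i k) (Sum.inr F') ↔
        (MG G R).Adj (g i k) (g 0 0)) := fun i k hk => by
      rw [SimpleGraph.adj_comm, hsame i k hk, SimpleGraph.adj_comm]
    have hPF : PF (MG G R) (n 0) h := by
      constructor
      · intro a b ha hb e
        by_cases ha0 : a = 0 <;> by_cases hb0 : b = 0
        · omega
        · exfalso
          rw [ha0, hh0, hhk b hb0] at e
          exact hdist 0 b hb (fun h => hb0 h.2) e
        · exfalso
          rw [hb0, hh0, hhk a ha0] at e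
          exact hdist 0 a ha (fun h => ha0 h.2) e.symm
        · rw [hhk a ha0, hhk b hb0] at e
          exact (hM.pi.inj 0 0 a b ha hb e).2
      · intro a b ha hb
        have key : (MG G R).Adj (h a) (h b) ↔ (MG G R).Adj (g 0 a) (g 0 b) := by
          by_cases ha0 : a = 0 <;> by_cases hb0 : b = 0
          · rw [ha0, hb0]
            exact iff_of_false (SimpleGraph.irrefl _) (SimpleGraph.irrefl _)
          · rw [ha0, hh0, hhk b hb0]
            exact hsame 0 b hb
          · rw [hb0, hh0, hhk a ha0]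
            exact hsym 0 a ha
          · rw [hhk a ha0, hhk b hb0]
        rw [key, hadj 0 0 a b ha hb]
        constructor
        · rintro (h | h)
          · exact h.2
          · exact absurd rfl h.1
        · intro h
          exact Or.inl ⟨rfl, h⟩
    have hPI := hPR _ (MG G R) n g (n 0) h hM.pi (hpos 0) hPF (by
      intro j k l hj hk hl
      by_cases hk0 : k = 0
      · rw [hk0, hh0]
        refine ⟨hdist j l hl (fun h => hj h.1), ?_⟩
        rw [hsame j l hl, hadj 0 j 0 l (Nat.zero_le _) hl]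
        have := hpos 0
        constructor
        · rintro (h | h)
          · exact absurd h.1.symm hj
          · exact h.2
        · intro h
          exact Or.inr ⟨hj.symm, h⟩
      · rw [hhk k hk0]
        refine ⟨fun e => hj (hM.pi.inj 0 j k l hk hl e).1.symm, ?_⟩
        rw [hadj 0 j k l hk hl]
        constructor
        · rintro (h | h)
          · exact absurd h.1.symm hj
          · exact h.2
        · intro h
          exact Or.inr ⟨hj.symm, h⟩)
    rw [Function.update_eq_self] at hPI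
    set g' : Fin 3 → ℕ → V ⊕ Set V := Function.update g 0 h with hg'
    have hg'0 : ∀ k, g' 0 k = h k := fun k => by rw [hg']; simp
    have hg'i : ∀ i k, i ≠ 0 → g' i k = g i k := fun i k hi => by rw [hg']; simp [hi]
    have hsub : vI n g' ⊆ insert (Sum.inr F') (vI n g \ {Sum.inr F}) := by
      rintro w ⟨i, k, hk, rfl⟩
      have hin : ∀ i k, k ≤ n i → ¬ (i = 0 ∧ k = 0) → g i k ∈ vI n g \ {Sum.inr F} := by
        intro i k hk hik
        refine ⟨mem_vI hk, fun e => hik ?_⟩
        have e4 : g i k = g 0 0 := by rw [h00]; exact e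
        exact hM.pi.inj i 0 k 0 hk (Nat.zero_le _) e4
      by_cases hi : i = 0
      · subst hi
        rw [hg'0]
        by_cases hk0 : k = 0
        · rw [hk0, hh0]; exact Or.inl rfl
        · rw [hhk k hk0]; exact Or.inr (hin 0 k hk fun h => hk0 h.2)
      · rw [hg'i i k hi]
        exact Or.inr (hin i k hk fun h => hi h.1)
    have hle := hM.mn n g' hPI hM.odd (qc_al hM.al hFv hF'F hsub)
    have hlt2 := (hGW V (vI n g) (vI n g') F hFv).1 F' hlt (by
      intro F0 hF0
      rcases hsub hF0 with e | e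
      · exact Or.inl (Sum.inr.inj e)
      · refine Or.inr ⟨e.1, fun e5 => e.2 ?_⟩
        rw [Set.mem_singleton_iff.1 e5]; rfl)
    omega
  rw [hFF] at hip hyF h2F h3F
  -- the parity
  have na2 : a2 ∉ F := fun h => a2R (FR h)
  have ny : y ∉ F := fun h => yR (FR h)
  have hs1 : IP G (m + 1) f a2 (insert a2 F) := hip.snoc na2 h2F
  have hya : ¬ G.Adj y a2 := by
    intro h
    have h1 : (MG G R).Adj (g 0 1) (g 1 0) := by rw [ey, e2]; exact h
    rw [hadj 0 1 1 0 (hpos 0) (Nat.zero_le _)] at h1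
    have := hpos 1
    rcases h1 with h1 | h1
    · exact absurd h1.1 (by decide)
    · omega
  have hyne : y ≠ a2 := by
    intro h
    have h1 : g 0 1 = g 1 0 := by rw [ey, e2, h]
    exact absurd (hM.pi.inj 0 1 1 0 (hpos 0) (Nat.zero_le _) h1).1 (by decide)
  have hs2 : IP G (m + 1 + 1) y a2 (insert y (insert a2 F)) := by
    refine hs1.cons ?_ ?_
    · rintro (h | h)
      · exact hyne h
      · exact ny h
    · rintro w (rfl | hw)
      · refine iff_of_false hya fun h => ?_
        rw [h] at na2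
        exact na2 hip.left_mem
      · exact hyF w hw
  have hE := hev (m + 1 + 1) y a2 _ hs2 yR a2R (by omega) (by
    rintro w (rfl | rfl | hw)
    · exact Or.inl rfl
    · exact Or.inr (Or.inl rfl)
    · exact Or.inr (Or.inr (FR hw)))
  refine ⟨y, a2, a3, f, f', m, ey, e2, e3, ⟨yR, FR, FC, f0, f0F, yf0⟩,
    ⟨a2R, FR, FC, f1, f1F, af1⟩, ⟨a3R, FR, FC, f2, f2F, af2⟩, ⟨hip, ?_, hyF, h2F, h3F⟩⟩
  obtain ⟨c, hc⟩ := hE
  exact ⟨c - 1, by omega⟩

end Pool.Agent.H7.ER3
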